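import Mathlib

/-!
Disconnected graphs whose connected set polynomial and node reliability have all real roots, in
every degree.
-/

namespace Pool.Agent.Results.MP_51a8c5_co.RealRootedAllDegrees

open Finset Polynomial SimpleGraph

/-- Connected sets of vertices. -/
def IsConn {V : Type} (G : SimpleGraph V) (S : Finset V) : Prop :=
  (G.induce (S : Set V)).Connected

open Classical in
/-- The connected set polynomial. -/
noncomputable def csp {V : Type} [Fintype V] (G : SimpleGraph V) : ℝ[X] :=
  ∑ S : Finset V with IsConn G S, X ^ S.card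

open Classical in
/-- The node reliability polynomial. -/
noncomputable def nrel {V : Type} [Fintype V] (G : SimpleGraph V) : ℝ[X] :=
  ∑ S : Finset V with IsConn G S, X ^ S.card * (1 - X) ^ (Fintype.card V - S.card)

/-- Every complex root is real. -/
def AllReal (f : ℝ[X]) : Prop := ∀ z : ℂ, aeval z f = 0 → z.im = 0

/-! ### Alternating points -/

/-- Points `s 0 > s 1 > ... > s n` at which `f` has alternating signs, positive at `s 0`. -/
def Alt (f : ℝ[X]) (n : ℕ) : Prop :=
  ∃ s : ℕ → ℝ, (∀ i < n, s (i + 1) < s i) ∧ ∀ i ≤ n, 0 < (-1) ^ i * f.eval (s i)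

theorem exists_neg (h : ℝ[X]) (n : ℕ) (hn : h.natDegree = n + 1) (hl : 0 < h.leadingCoeff)
    (b : ℝ) : ∃ x < b, 0 < (-1) ^ (n + 1) * h.eval x := by
  have hne : ((-1 : ℝ) ^ (n + 1)) ≠ 0 := pow_ne_zero _ (by norm_num)
  have hcomp : (C ((-1 : ℝ) ^ (n + 1)) * h.comp (-X)).leadingCoeff = h.leadingCoeff := by
    rw [leadingCoeff_mul, leadingCoeff_C, leadingCoeff_comp (by simp), leadingCoeff_neg,
      leadingCoeff_X, hn, mul_left_comm, ← mul_pow]
    norm_num
  have hdeg : (C ((-1 : ℝ) ^ (n + 1)) * h.comp (-X)).natDegree = n + 1 := by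
    rw [natDegree_C_mul hne, natDegree_comp, natDegree_neg, natDegree_X, hn, mul_one]
  have ht := Polynomial.tendsto_atTop_of_leadingCoeff_nonneg
    (C ((-1 : ℝ) ^ (n + 1)) * h.comp (-X))
    (natDegree_pos_iff_degree_pos.1 (by omega)) (by rw [hcomp]; exact hl.le)
  obtain ⟨x, hx1, hx2⟩ := ((ht.eventually_gt_atTop 0).and
    (Filter.eventually_gt_atTop (-b))).exists
  refine ⟨-x, by linarith, ?_⟩
  simpa using hx1

theorem alt_step {f g : ℝ[X]} {n : ℕ} (hf : f.natDegree = n) (ha : Alt f n)
    (hg : g.natDegree = n + 1) (hgl : 0 < g.leadingCoeff) :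
    ∃ M : ℕ, 1 ≤ M ∧ ((M : ℝ[X]) * f + g).natDegree = n + 1 ∧
      0 < ((M : ℝ[X]) * f + g).leadingCoeff ∧ Alt ((M : ℝ[X]) * f + g) (n + 1) := by
  obtain ⟨s, hs, hpos⟩ := ha
  have hlt : ∀ M : ℕ, ((M : ℝ[X]) * f).natDegree < g.natDegree := by
    intro M
    rw [hg]
    refine lt_of_le_of_lt (natDegree_mul_le) ?_
    rw [natDegree_natCast, hf]
    omega
  have hdeg : ∀ M : ℕ, ((M : ℝ[X]) * f + g).natDegree = n + 1 := by
    intro M
    rw [natDegree_add_eq_right_of_natDegree_lt (hlt M), hg]
  have hlead : ∀ M : ℕ, ((M : ℝ[X]) * f + g).leadingCoeff = g.leadingCoeff := by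
    intro M
    rw [leadingCoeff_add_of_degree_lt (degree_lt_degree (hlt M))]
  have hev : ∀ᶠ M : ℕ in Filter.atTop, ∀ i ∈ Finset.range (n + 1),
      0 < (-1) ^ i * ((M : ℝ[X]) * f + g).eval (s i) := by
    rw [Filter.eventually_all_finset]
    intro i hi
    have h1 := hpos i (by rw [Finset.mem_range] at hi; omega)
    have h2 : Filter.Tendsto (fun M : ℕ => (M : ℝ) * ((-1) ^ i * f.eval (s i)) +
        (-1) ^ i * g.eval (s i)) Filter.atTop Filter.atTop :=
      Filter.tendsto_atTop_add_const_right _ _
        (tendsto_natCast_atTop_atTop.atTop_mul_const h1)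
    filter_upwards [h2.eventually_gt_atTop 0] with M hM
    rw [eval_add, eval_mul, eval_natCast]
    linarith
  obtain ⟨M, hM, hM1⟩ := (hev.and (Filter.eventually_ge_atTop 1)).exists
  refine ⟨M, hM1, hdeg M, by rw [hlead]; exact hgl, ?_⟩
  obtain ⟨x, hx, hx2⟩ := exists_neg _ n (hdeg M) (by rw [hlead]; exact hgl) (s n)
  refine ⟨fun i => if i ≤ n then s i else x, ?_, ?_⟩
  · intro i hi
    by_cases h1 : i + 1 ≤ n
    · simp only [h1, (by omega : i ≤ n), if_true]
      exact hs i (by omega)
    · have : i = n := by omega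
      subst this
      simpa using hx
  · intro i hi
    by_cases h1 : i ≤ n
    · simp only [h1, if_true]
      exact hM i (Finset.mem_range.2 (by omega))
    · have : i = n + 1 := by omega
      subst this
      simpa using hx2

theorem allReal_of_alt {f : ℝ[X]} {n : ℕ} (hf : f.natDegree = n) (ha : Alt f n) : AllReal f := by
  obtain ⟨s, hs, hpos⟩ := ha
  have hne : f ≠ 0 := by
    rintro rfl
    have := hpos 0 (by omega)
    simp at this
  -- a root in each interval
  have hroot : ∀ i < n, ∃ r, s (i + 1) < r ∧ r < s i ∧ f.eval r = 0 := by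
    intro i hi
    have h1 := hpos i (by omega)
    have h2 := hpos (i + 1) (by omega)
    have h3 : f.eval (s i) * f.eval (s (i + 1)) < 0 := by
      have h4 : 0 < ((-1) ^ i * f.eval (s i)) * ((-1) ^ (i + 1) * f.eval (s (i + 1))) :=
        mul_pos h1 h2
      have h5 : ((-1 : ℝ) ^ i * f.eval (s i)) * ((-1) ^ (i + 1) * f.eval (s (i + 1))) =
          ((-1 : ℝ) ^ i * (-1) ^ i) * (-(f.eval (s i) * f.eval (s (i + 1)))) := by
        rw [pow_succ]; ring
      rw [h5, ← mul_pow] at h4
      norm_num at h4
      exact h4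
    have hle : s (i + 1) ≤ s i := (hs i hi).le
    have hcont : ContinuousOn (fun x => f.eval x) (Set.Icc (s (i + 1)) (s i)) :=
      f.continuous.continuousOn
    have hex : ∃ r ∈ Set.Icc (s (i + 1)) (s i), f.eval r = 0 := by
      rcases lt_or_gt_of_ne (show f.eval (s i) ≠ 0 by rintro h; rw [h] at h3; simp at h3) with h | h
      · have h6 : 0 < f.eval (s (i + 1)) := by
          by_contra hc
          push Not at hc
          nlinarith [mul_nonneg_of_nonpos_of_nonpos h.le hc]
        exact intermediate_value_Icc' hle hcont ⟨h.le, h6.le⟩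
      · have h6 : f.eval (s (i + 1)) < 0 := by
          by_contra hc
          push Not at hc
          nlinarith [mul_nonneg h.le hc]
        exact intermediate_value_Icc hle hcont ⟨h6.le, h.le⟩
    obtain ⟨r, hr, hr0⟩ := hex
    refine ⟨r, lt_of_le_of_ne hr.1 ?_, lt_of_le_of_ne hr.2 ?_, hr0⟩
    · rintro rfl
      rw [hr0] at h2
      simp at h2
    · rintro rfl
      rw [hr0] at h1
      simp at h1
  choose! r hr1 hr2 hr3 using hroot
  have hmono : ∀ i j, i < j → j < n → r j < r i := by
    intro i j hij hj
    have hsle : ∀ k, i + 1 + k ≤ n → s (i + 1 + k) ≤ s (i + 1) := by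
      intro k
      induction k with
      | zero => intro _; exact le_rfl
      | succ k ih =>
        intro hk
        exact (hs (i + 1 + k) (by omega)).le.trans (ih (by omega))
    have h1 := hsle (j - (i + 1)) (by omega)
    rw [show i + 1 + (j - (i + 1)) = j by omega] at h1
    calc r j < s j := hr2 j hj
      _ ≤ s (i + 1) := h1
      _ < r i := hr1 i (by omega)
  intro z hz
  by_contra him
  -- too many roots over the complex numbers
  let F : ℂ[X] := f.map (algebraMap ℝ ℂ)
  have hF : F ≠ 0 := (Polynomial.map_ne_zero_iff (algebraMap ℝ ℂ).injective).2 hne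
  have hFdeg : F.natDegree = n := by rw [natDegree_map, hf]
  let T : Finset ℂ := insert z ((Finset.range n).image (fun i => (r i : ℂ)))
  have hT : T.card = n + 1 := by
    have h1 : ((Finset.range n).image (fun i => (r i : ℂ))).card = n := by
      rw [Finset.card_image_of_injOn, Finset.card_range]
      intro i hi j hj hij
      have hij : r i = r j := by
        have : (r i : ℂ) = (r j : ℂ) := hij
        exact_mod_cast this
      rcases lt_trichotomy i j with h | h | h
      · exact absurd hij (hmono i j h (by simpa using hj)).ne'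
      · exact h
      · exact absurd hij (hmono j i h (by simpa using hi)).ne
    rw [Finset.card_insert_of_notMem, h1]
    intro hmem
    obtain ⟨i, -, hi⟩ := Finset.mem_image.1 hmem
    rw [← hi] at him
    simp at him
  have hsub : T ⊆ F.roots.toFinset := by
    intro w hw
    rw [Multiset.mem_toFinset, mem_roots hF, IsRoot.def]
    rcases Finset.mem_insert.1 hw with rfl | hw
    · rw [eval_map_algebraMap]
      exact hz
    · obtain ⟨i, hi, rfl⟩ := Finset.mem_image.1 hw
      rw [eval_map_algebraMap]
      have := hr3 i (Finset.mem_range.1 hi)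
      rw [show ((r i : ℝ) : ℂ) = algebraMap ℝ ℂ (r i) from rfl, aeval_algebraMap_apply]
      simp [this]
  have h1 := Finset.card_le_card hsub
  have h2 := (Multiset.toFinset_card_le F.roots).trans (card_roots' F)
  omega

/-! ### Graph side -/

theorem isConn_map {V W : Type} {G : SimpleGraph V} {K : SimpleGraph W} (φ : G ↪g K)
    (S : Finset V) : IsConn K (S.map φ.toEmbedding) ↔ IsConn G S := by
  unfold IsConn
  have hc : ((S.map φ.toEmbedding : Finset W) : Set W) = φ '' (S : Set V) := by
    rw [Finset.coe_map]; rfl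
  rw [hc]
  refine (Iso.connected_iff ⟨Equiv.Set.image φ (S : Set V) φ.injective, ?_⟩).symm
  intro a b
  exact φ.map_adj_iff

/-- A connected set of a disjoint union lies in one of the parts. -/
theorem conn_sum {V W : Type} {G : SimpleGraph V} {H : SimpleGraph W} {S : Finset (V ⊕ W)}
    (hS : IsConn (G ⊕g H) S) : (∀ x ∈ S, x.isLeft = true) ∨ (∀ x ∈ S, x.isLeft = false) := by
  by_contra hno
  push Not at hno
  obtain ⟨⟨x, hx, hx1⟩, ⟨y, hy, hy1⟩⟩ := hno
  obtain ⟨w⟩ := hS.preconnected ⟨x, hx⟩ ⟨y, hy⟩
  have key : ∀ (a b : (S : Set (V ⊕ W))), ((G ⊕g H).induce (S : Set (V ⊕ W))).Walk a b →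
      a.1.isLeft = b.1.isLeft := by
    intro a b w
    induction w with
    | nil => rfl
    | cons h _ ih =>
      rw [← ih]
      rename_i u v _ _
      have h' : (G ⊕g H).Adj u.1 v.1 := h
      rcases hu : u.1 with a | a <;> rcases hv : v.1 with b | b <;> rw [hu, hv] at h' <;>
        simp at h' ⊢
  have := key _ _ w
  simp only at this
  cases hxl : x.isLeft <;> cases hyl : y.isLeft <;> simp_all

theorem csp_sum {V W : Type} [Fintype V] [Fintype W] (G : SimpleGraph V) (H : SimpleGraph W) :
    csp (G ⊕g H) = csp G + csp H := by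
  classical
  unfold csp
  have h1 : (univ.filter (fun S : Finset (V ⊕ W) => IsConn (G ⊕g H) S)) =
      (univ.filter (fun S : Finset V => IsConn G S)).map
        ⟨fun S => S.map (Embedding.sumInl : G ↪g G ⊕g H).toEmbedding, Finset.map_injective _⟩ ∪
      (univ.filter (fun S : Finset W => IsConn H S)).map
        ⟨fun S => S.map (Embedding.sumInr : H ↪g G ⊕g H).toEmbedding, Finset.map_injective _⟩ := by
    ext S
    simp only [mem_filter, mem_univ, true_and, mem_union, mem_map, Function.Embedding.coeFn_mk]
    constructor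
    · intro hS
      rcases conn_sum hS with h | h
      · left
        let S' : Finset V := univ.filter (fun v => Sum.inl v ∈ S)
        have he : S'.map (Embedding.sumInl : G ↪g G ⊕g H).toEmbedding = S := by
          ext x
          simp only [mem_map, S', mem_filter, mem_univ, true_and]
          constructor
          · rintro ⟨v, hv, rfl⟩; exact hv
          · intro hx
            rcases x with v | w
            · exact ⟨v, hx, rfl⟩
            · exact absurd (h _ hx) (by simp)
        refine ⟨S', ?_, he⟩
        rw [← isConn_map (Embedding.sumInl : G ↪g G ⊕g H), he]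
        exact hS
      · right
        let S' : Finset W := univ.filter (fun v => Sum.inr v ∈ S)
        have he : S'.map (Embedding.sumInr : H ↪g G ⊕g H).toEmbedding = S := by
          ext x
          simp only [mem_map, S', mem_filter, mem_univ, true_and]
          constructor
          · rintro ⟨v, hv, rfl⟩; exact hv
          · intro hx
            rcases x with v | w
            · exact absurd (h _ hx) (by simp)
            · exact ⟨w, hx, rfl⟩
        refine ⟨S', ?_, he⟩
        rw [← isConn_map (Embedding.sumInr : H ↪g G ⊕g H), he]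
        exact hS
    · rintro (⟨S', hS', rfl⟩ | ⟨S', hS', rfl⟩)
      · exact (isConn_map _ _).2 hS'
      · exact (isConn_map _ _).2 hS'
  have hdisj : Disjoint ((univ.filter (fun S : Finset V => IsConn G S)).map
        ⟨fun S => S.map (Embedding.sumInl : G ↪g G ⊕g H).toEmbedding, Finset.map_injective _⟩)
      ((univ.filter (fun S : Finset W => IsConn H S)).map
        ⟨fun S => S.map (Embedding.sumInr : H ↪g G ⊕g H).toEmbedding, Finset.map_injective _⟩) := by
    rw [Finset.disjoint_left]
    intro S hS hS2
    simp only [mem_filter, mem_univ, true_and, mem_map, Function.Embedding.coeFn_mk] at hS hS2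
    obtain ⟨A, hA, rfl⟩ := hS
    obtain ⟨B, hB, he⟩ := hS2
    obtain ⟨⟨b, hb⟩⟩ := hB.nonempty
    have : (Sum.inr b : V ⊕ W) ∈ A.map (Embedding.sumInl : G ↪g G ⊕g H).toEmbedding := by
      rw [← he]
      exact mem_map_of_mem (Embedding.sumInr : H ↪g G ⊕g H).toEmbedding hb
    obtain ⟨a, -, ha⟩ := mem_map.1 this
    cases ha
  rw [h1, sum_union hdisj, sum_map, sum_map]
  simp

theorem copies {V : Type} [Fintype V] [Nonempty V] (G : SimpleGraph V) (M : ℕ) (hM : 1 ≤ M) :
    ∃ (W : Type) (_ : Fintype W) (_ : Nonempty W) (H : SimpleGraph W),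
      csp H = (M : ℝ[X]) * csp G := by
  induction M, hM using Nat.le_induction with
  | base => exact ⟨V, inferInstance, inferInstance, G, by simp⟩
  | succ M hM ih =>
    obtain ⟨W, _, _, H, hH⟩ := ih
    refine ⟨V ⊕ W, inferInstance, inferInstance, G ⊕g H, ?_⟩
    rw [csp_sum, hH]
    push_cast
    ring

theorem complete_degree (n : ℕ) : (csp (⊤ : SimpleGraph (Fin (n + 1)))).natDegree = n + 1 ∧
    0 < (csp (⊤ : SimpleGraph (Fin (n + 1)))).leadingCoeff := by
  classical
  have hcoeff : (csp (⊤ : SimpleGraph (Fin (n + 1)))).coeff (n + 1) = 1 := by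
    unfold csp
    rw [finsetSum_coeff]
    rw [Finset.sum_eq_single (univ : Finset (Fin (n + 1)))]
    · simp
    · intro S hS hne
      rw [coeff_X_pow, if_neg]
      intro h
      apply hne
      apply (Finset.card_eq_iff_eq_univ S).1
      rw [← h, Fintype.card_fin]
    · intro h
      exfalso
      apply h
      simp only [mem_filter, mem_univ, true_and]
      have : Nonempty ((univ : Finset (Fin (n + 1))) : Set (Fin (n + 1))) := ⟨⟨0, by simp⟩⟩
      refine ⟨?_⟩
      intro a b
      by_cases hab : a = b
      · rw [hab]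
      · apply Adj.reachable
        show (⊤ : SimpleGraph (Fin (n + 1))).Adj a.1 b.1
        rw [top_adj]
        exact fun h => hab (Subtype.ext h)
  have hle : (csp (⊤ : SimpleGraph (Fin (n + 1)))).natDegree ≤ n + 1 := by
    unfold csp
    apply natDegree_sum_le_of_forall_le
    intro S _
    rw [natDegree_X_pow]
    exact (card_le_univ S).trans (by simp)
  have hdeg : (csp (⊤ : SimpleGraph (Fin (n + 1)))).natDegree = n + 1 :=
    le_antisymm hle (le_natDegree_of_ne_zero (by rw [hcoeff]; norm_num))
  refine ⟨hdeg, ?_⟩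
  rw [leadingCoeff, hdeg, hcoeff]
  norm_num

theorem csp_one : csp (⊤ : SimpleGraph (Fin 1)) = X := by
  classical
  unfold csp
  have : (univ.filter (fun S : Finset (Fin 1) => IsConn (⊤ : SimpleGraph (Fin 1)) S)) =
      {univ} := by
    ext S
    simp only [mem_filter, mem_univ, true_and, mem_singleton]
    constructor
    · intro hS
      obtain ⟨⟨b, hb⟩⟩ := hS.nonempty
      ext x
      simp only [mem_univ, iff_true]
      rw [Subsingleton.elim x b]
      exact hb
    · rintro rfl
      have : Nonempty ((univ : Finset (Fin 1)) : Set (Fin 1)) := ⟨⟨0, by simp⟩⟩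
      refine ⟨?_⟩
      intro a b
      rw [Subsingleton.elim a b]
  rw [this, sum_singleton]
  simp

/-- The inductive construction. -/
theorem family (n : ℕ) : ∃ (V : Type) (_ : Fintype V) (_ : Nonempty V) (G : SimpleGraph V),
    (1 ≤ n → ¬ G.Connected) ∧ (csp G).natDegree = n + 1 ∧ 0 < (csp G).leadingCoeff ∧
      Alt (csp G) (n + 1) := by
  induction n with
  | zero =>
    refine ⟨Fin 1, inferInstance, inferInstance, ⊤, by omega, by rw [csp_one]; simp,
      by rw [csp_one]; simp, ?_⟩
    rw [csp_one]
    refine ⟨fun i => if i = 0 then 1 else -1, ?_, ?_⟩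
    · intro i hi
      have : i = 0 := by omega
      subst this
      norm_num
    · intro i hi
      rcases Nat.le_one_iff_eq_zero_or_eq_one.1 hi with h | h <;> subst h <;> simp
  | succ n ih =>
    obtain ⟨V, _, _, G, -, hdeg, hlead, halt⟩ := ih
    obtain ⟨c1, c2⟩ := complete_degree (n + 1)
    obtain ⟨M, hM, h1, h2, h3⟩ := alt_step hdeg halt c1 c2
    obtain ⟨W, _, _, H, hH⟩ := copies G M hM
    refine ⟨W ⊕ Fin (n + 1 + 1), inferInstance, inferInstance,
      H ⊕g (⊤ : SimpleGraph (Fin (n + 1 + 1))), fun _ => not_connected_sum, ?_, ?_, ?_⟩ <;>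
      rw [csp_sum, hH]
    · exact h1
    · exact h2
    · exact h3

/-- The node reliability of a graph has all real roots when its connected set polynomial does. -/
theorem nrel_allReal {V : Type} [Fintype V] {G : SimpleGraph V} (h : AllReal (csp G)) :
    AllReal (nrel G) := by
  classical
  intro p hp
  by_cases h1 : p = 1
  · rw [h1]; simp
  have h1' : (1 : ℂ) - p ≠ 0 := sub_ne_zero.2 (Ne.symm h1)
  have key : aeval p (nrel G) = (1 - p) ^ (Fintype.card V) * aeval (p / (1 - p)) (csp G) := by
    unfold nrel csp
    rw [map_sum, map_sum, mul_sum]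
    refine sum_congr rfl fun S _ => ?_
    simp only [map_mul, map_pow, aeval_X, map_sub, map_one]
    have hle : S.card ≤ Fintype.card V := card_le_univ S
    have e : (1 - p) ^ (Fintype.card V) = (1 - p) ^ (Fintype.card V - S.card) * (1 - p) ^ S.card := by
      rw [← pow_add, Nat.sub_add_cancel hle]
    rw [e, div_pow]
    field_simp
  rw [key] at hp
  have h2 : aeval (p / (1 - p)) (csp G) = 0 := by
    rcases mul_eq_zero.1 hp with h3 | h3
    · exact absurd h3 (pow_ne_zero _ h1')
    · exact h3
  have h3 := h _ h2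
  set x := p / (1 - p) with hx
  have h4 : p = x * (1 - p) := by rw [hx, div_mul_cancel₀ _ h1']
  have h5 : (1 + x) ≠ 0 := by
    intro h6
    have : x = -1 := by linear_combination h6
    rw [this] at h4
    have : (1 : ℂ) = 0 := by linear_combination h4
    exact one_ne_zero this
  have hxr : x = ((x.re : ℝ) : ℂ) := by
    apply Complex.ext
    · simp
    · simpa using h3
  have h6 : p = x / (1 + x) := by
    rw [eq_div_iff h5]
    linear_combination h4
  rw [h6, hxr]
  have : ((x.re : ℝ) : ℂ) / (1 + ((x.re : ℝ) : ℂ)) = ((x.re / (1 + x.re) : ℝ) : ℂ) := by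
    push_cast
    rfl
  rw [this]
  exact Complex.ofReal_im _

/-- For every `d` there is a disconnected graph whose connected set polynomial has degree at
least `d` and such that both its connected set polynomial and its node reliability have all real
roots. In particular degree greater than `3` occurs. -/
theorem result :
    (∃ (V : Type) (_ : Fintype V) (G : SimpleGraph V), ¬ G.Connected ∧
      3 < (csp G).natDegree ∧ AllReal (csp G) ∧ AllReal (nrel G)) ∧
    (∀ d : ℕ, ∃ (V : Type) (_ : Fintype V) (_ : Nonempty V) (G : SimpleGraph V),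
      ¬ G.Connected ∧ d ≤ (csp G).natDegree ∧ AllReal (csp G) ∧ AllReal (nrel G)) := by
  have key : ∀ d : ℕ, ∃ (V : Type) (_ : Fintype V) (_ : Nonempty V) (G : SimpleGraph V),
      ¬ G.Connected ∧ d ≤ (csp G).natDegree ∧ AllReal (csp G) ∧ AllReal (nrel G) := by
    intro d
    obtain ⟨V, i1, i2, G, h1, h2, h3, h4⟩ := family (d + 1)
    have h5 := allReal_of_alt h2 h4
    exact ⟨V, i1, i2, G, h1 (by omega), by omega, h5, nrel_allReal h5⟩
  refine ⟨?_, key⟩
  obtain ⟨V, i1, -, G, h1, h2, h3, h4⟩ := key 4
  exact ⟨V, i1, G, h1, by omega, h3, h4⟩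

end Pool.Agent.Results.MP_51a8c5_co.RealRootedAllDegrees
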